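import Pool.Agent.H92.BF.Targets

/-!
# Binary forms with too many zeros (module BFR)
-/

set_option autoImplicit false

namespace Pool.Agent.H56.BF

open MvPolynomial SC Pool.Agent.H27.LV Pool.Agent.H92.BF

section

variable {k : Type} [Field k]

theorem supp_deg {e : ℕ} {γ : MvPolynomial (Fin 2) k} (hγ : γ.IsHomogeneous e)
    (s : Fin 2 →₀ ℕ) (hs : s ∈ γ.support) : s 0 + s 1 = e := by
  have h := hγ (MvPolynomial.mem_support_iff.1 hs)
  rw [Finsupp.weight_apply, Finsupp.sum_fintype _ _ (by simp), Fin.sum_univ_two] at h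
  simpa using h

theorem dh_eq (γ : MvPolynomial (Fin 2) k) :
    dh γ = ∑ s ∈ γ.support, Polynomial.C (γ.coeff s) * Polynomial.X ^ (s 1) := by
  rw [dh, MvPolynomial.aeval_def, MvPolynomial.eval₂_eq']
  refine Finset.sum_congr rfl fun s _ => ?_
  rw [Fin.prod_univ_two]
  simp

theorem dh_natDegree {e : ℕ} {γ : MvPolynomial (Fin 2) k} (hγ : γ.IsHomogeneous e) :
    (dh γ).natDegree ≤ e := by
  rw [dh_eq]
  refine Polynomial.natDegree_sum_le_of_forall_le _ _ fun s hs => ?_
  refine (Polynomial.natDegree_C_mul_X_pow_le _ _).trans ?_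
  have := supp_deg hγ s hs
  omega

theorem dh_coeff {e : ℕ} {γ : MvPolynomial (Fin 2) k} (hγ : γ.IsHomogeneous e) (q : k) :
    (dh γ).coeff e * q ^ e = eval ![0, q] γ := by
  rw [dh_eq, MvPolynomial.eval_eq', Polynomial.finset_sum_coeff, Finset.sum_mul]
  refine Finset.sum_congr rfl fun s hs => ?_
  have h1 := supp_deg hγ s hs
  rw [Fin.prod_univ_two, Polynomial.coeff_C_mul, Polynomial.coeff_X_pow]
  by_cases h : s 0 = 0
  · have h2 : s 1 = e := by omega
    rw [if_pos h2.symm, h, h2]
    simp
  · have h2 : e ≠ s 1 := by omega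
    rw [if_neg h2]
    simp [h]

end

theorem pf_BFR (hDHO : T_DHO) : T_BFR := by
  intro k _ m e a hPw he γ hγ hz
  classical
  by_contra hne
  have hg : dh γ ≠ 0 := (hDHO k k ![1, 0] e γ hγ (by simp)).2 hne
  have hdeg := dh_natDegree hγ
  -- the roots
  let r : {i : Fin m // a i 1 ≠ 0} → k := fun i => -a i.1 0 / a i.1 1
  have hr : Function.Injective r := by
    intro i j hij
    by_contra hne'
    have h1 : i.1 ≠ j.1 := fun h => hne' (Subtype.ext h)
    have h2 := hPw i.1 j.1 h1
    have h3 : -a i.1 0 / a i.1 1 = -a j.1 0 / a j.1 1 := hij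
    rw [div_eq_div_iff i.2 j.2] at h3
    apply h2
    linear_combination -h3
  have hroot : ∀ i, (dh γ).eval (r i) = 0 := by
    intro i
    have h1 := (hDHO k k (rt (a i.1)) e γ hγ (by simpa [rt] using i.2)).1
    have h2 : aeval (rt (a i.1)) γ = eval (rt (a i.1)) γ := by
      rw [MvPolynomial.aeval_def, MvPolynomial.eval₂_eq_eval_map]
      simp
    rw [h2, hz i.1, Polynomial.coe_aeval_eq_eval] at h1
    have h3 : rt (a i.1) 1 / rt (a i.1) 0 = r i := by simp [rt, r]
    rw [h3] at h1
    have h4 : rt (a i.1) 0 ^ e ≠ 0 := pow_ne_zero _ (by simpa [rt] using i.2)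
    exact (mul_eq_zero.1 h1.symm).resolve_left h4
  by_cases hA : ∀ i, a i 1 ≠ 0
  · have hc : Fintype.card {i : Fin m // a i 1 ≠ 0} = m := by
      rw [Fintype.card_subtype, Finset.filter_true_of_mem fun i _ => hA i, Finset.card_univ,
        Fintype.card_fin]
    exact hg (Polynomial.eq_zero_of_natDegree_lt_card_of_eval_eq_zero _ hr hroot (by omega))
  · push Not at hA
    obtain ⟨i₀, hi₀⟩ := hA
    have hoth : ∀ j, j ≠ i₀ → a j 1 ≠ 0 := by
      intro j hj h0
      apply hPw i₀ j hj.symm
      rw [h0, hi₀]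
      ring
    have hc : m ≤ Fintype.card {i : Fin m // a i 1 ≠ 0} + 1 := by
      rw [Fintype.card_subtype]
      have h1 : (Finset.univ.erase i₀ : Finset (Fin m)) ⊆
          Finset.univ.filter fun i => a i 1 ≠ 0 := by
        intro j hj
        rw [Finset.mem_filter]
        exact ⟨Finset.mem_univ j, hoth j (Finset.ne_of_mem_erase hj)⟩
      have h2 := Finset.card_le_card h1
      rw [Finset.card_erase_of_mem (Finset.mem_univ i₀), Finset.card_univ, Fintype.card_fin]
        at h2
      omega
    have hco : (dh γ).coeff e = 0 := by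
      have h1 := dh_coeff hγ (-a i₀ 0)
      have h2 : rt (a i₀) = ![0, -a i₀ 0] := by
        unfold rt
        rw [hi₀]
      rw [← h2, hz i₀] at h1
      rcases Nat.eq_zero_or_pos e with h3 | h3
      · subst h3
        simpa using h1
      · have h4 : 1 < m := by omega
        obtain ⟨j, hj⟩ : ∃ j : Fin m, j ≠ i₀ := by
          have : Nontrivial (Fin m) := Fin.nontrivial_iff_two_le.2 h4
          exact exists_ne i₀
        have h5 : a i₀ 0 ≠ 0 := by
          intro h0
          apply hPw i₀ j hj.symm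
          rw [h0, hi₀]
          ring
        have h6 : (-a i₀ 0) ^ e ≠ 0 := pow_ne_zero _ (neg_ne_zero.2 h5)
        exact (mul_eq_zero.1 h1).resolve_right h6
    have hlt : (dh γ).natDegree < e := by
      rcases hdeg.lt_or_eq with h | h
      · exact h
      · exfalso
        rw [← h] at hco
        exact hg (Polynomial.leadingCoeff_eq_zero.1 hco)
    exact hg (Polynomial.eq_zero_of_natDegree_lt_card_of_eval_eq_zero _ hr hroot (by omega))

end Pool.Agent.H56.BF
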