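import Pool.Agent.H92.BF.Targets
import Pool.Agent.H27.LV.Curve

/-!
# Truncated counting functions and covers (modules TRU, COV)
-/

set_option autoImplicit false

namespace Pool.Agent.H56.BF

open MvPolynomial SC Pool.Agent.H27.LV Pool.Agent.H92.BF

section

variable {k K : Type} [Field k] [Field K] [Algebra k K]

/-- values of polynomials are integral -/
theorem aeval_nonneg (v : DV k K) {x : Fin 2 → K} (h0 : 0 ≤ v.ord (x 0)) (h1 : 0 ≤ v.ord (x 1))
    (P : MvPolynomial (Fin 2) k) : 0 ≤ v.ord (aeval x P) := by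
  induction P using MvPolynomial.induction_on with
  | C a =>
    rw [MvPolynomial.aeval_C, v.ord_base]
  | add p q hp hq =>
    rw [map_add]
    exact v.ord_add_nonneg hp hq
  | mul_X p i hp =>
    rw [map_mul, MvPolynomial.aeval_X]
    refine v.ord_mul_nonneg hp ?_
    fin_cases i
    · exact h0
    · exact h1

theorem ge_x (v : DV k K) (x : Fin 2 → K) (i : Fin 2) : ge v (-(poleOrder v x : ℤ)) (x i) := by
  right
  have h1 : (-(v.ord (x i))).toNat ≤ poleOrder v x :=
    Finset.le_sup (f := fun i => (-(v.ord (x i))).toNat) (Finset.mem_univ i)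
  omega

theorem ge_prod (v : DV k K) {ι : Type} (s : Finset ι) (f : ι → K) (t : ℤ)
    (h : ∀ i ∈ s, ge v t (f i)) : ge v (s.card * t) (∏ i ∈ s, f i) := by
  classical
  induction s using Finset.induction_on with
  | empty =>
    simp only [Finset.card_empty, Nat.cast_zero, zero_mul, Finset.prod_empty]
    exact ge_one v
  | insert a s ha ih =>
    rw [Finset.prod_insert ha, Finset.card_insert_of_notMem ha]
    have h1 := (h a (Finset.mem_insert_self _ _)).mul
      (ih fun i hi => h i (Finset.mem_insert_of_mem hi))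
    refine h1.mono ?_
    push_cast
    linarith

/-- the poles of `F(x)` -/
theorem ge_FF (v : DV k K) (x : Fin 2 → K) {m : ℕ} (a : Fin m → Fin 2 → k) :
    ge v (-(m * poleOrder v x : ℤ)) (aeval x (FF a)) := by
  rw [FF, map_prod]
  have h1 : ∀ i ∈ (Finset.univ : Finset (Fin m)),
      ge v (-(poleOrder v x : ℤ)) (aeval x (lf (a i))) := by
    intro i _
    rw [lf, map_add, map_mul, map_mul, MvPolynomial.aeval_C, MvPolynomial.aeval_C,
      MvPolynomial.aeval_X, MvPolynomial.aeval_X]
    have h2 := (ge_const v (a i 0)).mul (ge_x v x 0)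
    have h3 := (ge_const v (a i 1)).mul (ge_x v x 1)
    rw [zero_add] at h2 h3
    exact h2.add h3
  have h4 := ge_prod v Finset.univ (fun i => aeval x (lf (a i))) _ h1
  rw [Finset.card_univ, Fintype.card_fin] at h4
  exact h4.mono (by linarith)

end

theorem pf_TRU (hMN : T_MN) : T_TRU := by
  intro k _ _ _ m a hm hPw
  obtain ⟨B, hB⟩ := hMN k m a hm hPw
  refine ⟨B, ?_⟩
  intro K _ _ _ htr D hD x S hS
  classical
  set Z : Set (DV k K) := {v | v ∉ S ∧ 0 < v.ord (aeval x (FF a) - 1)} with hZ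
  have hZf : Z.Finite := (pfm k K htr (aeval x (FF a) - 1)).1.subset fun v hv => by
    have : 0 < v.ord (aeval x (FF a) - 1) := hv.2
    exact (ne_of_gt this)
  have hcard : ((S ∪ hZf.toFinset).card : ℤ) = S.card + Z.ncard := by
    rw [Set.ncard_eq_toFinset_card Z hZf, Finset.card_union_of_disjoint]
    · push_cast
      rfl
    · rw [Finset.disjoint_left]
      intro v hv hv'
      exact (hZf.mem_toFinset.1 hv').1 hv
  have key := hB K htr D hD x (S ∪ hZf.toFinset) fun v hv => ?_
  · rw [hcard] at key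
    rcases key with h | h
    · left
      linarith
    · exact Or.inr h
  · rw [Finset.mem_union, not_or] at hv
    obtain ⟨h0, h1⟩ := hS v hv.1
    refine ⟨h0, h1, ?_⟩
    have h2 : 0 ≤ v.ord (aeval x (FF a) - 1) := by
      refine v.ord_sub_nonneg (aeval_nonneg v h0 h1 _) ?_
      rw [v.ord_one]
    have h3 : ¬ 0 < v.ord (aeval x (FF a) - 1) := fun h =>
      hv.2 (hZf.mem_toFinset.2 ⟨hv.1, h⟩)
    omega

/-- the number of the zeros of `t` is at most the sum of the orders of the poles -/
theorem zeros_le {k K : Type} [Field k] [IsAlgClosed k] [CharZero k] [Field K] [Algebra k K]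
    [Algebra.EssFiniteType k K] (htr : Algebra.trdeg k K = 1) (x : Fin 2 → K) (t : K)
    (m μ : ℕ) (hμ : 1 ≤ μ)
    (h : ∀ v : DV k K, -((m * poleOrder v x : ℕ) : ℤ) ≤ μ * v.ord t) (Z : Finset (DV k K))
    (hZ : ∀ v ∈ Z, 0 < v.ord t) : μ * Z.card ≤ m * deg k x := by
  classical
  obtain ⟨hf, hs⟩ := pfm k K htr t
  have hp := pfi k K htr (Fin 2) x
  obtain ⟨T, hT⟩ : ∃ T : Finset (DV k K), T = hf.toFinset ∪ hp.toFinset := ⟨_, rfl⟩
  have hT1 : ∀ v : DV k K, v.ord t ≠ 0 → v ∈ T := fun v hv => by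
    rw [hT]
    exact Finset.mem_union_left _ (hf.mem_toFinset.2 hv)
  have hT2 : ∀ v : DV k K, poleOrder v x ≠ 0 → v ∈ T := fun v hv => by
    rw [hT]
    exact Finset.mem_union_right _ (hp.mem_toFinset.2 hv)
  have e1 : ∑ v ∈ T, v.ord t = 0 := by
    rw [← hs]
    refine (finsum_eq_sum_of_support_subset _ fun v hv => ?_).symm
    exact hT1 v hv
  have e2 : deg k x = ∑ v ∈ T, poleOrder v x := by
    unfold deg
    refine finsum_eq_sum_of_support_subset _ fun v hv => ?_
    exact hT2 v hv
  have hZT : Z ⊆ T := fun v hv => hT1 v (hZ v hv).ne'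
  have e3 : ∑ v ∈ T, ((if v ∈ Z then (μ : ℤ) else 0) - (m * poleOrder v x : ℕ)) ≤
      ∑ v ∈ T, μ * v.ord t := by
    refine Finset.sum_le_sum fun v _ => ?_
    split_ifs with hv
    · have h1 := hZ v hv
      have h2 : (μ : ℤ) * 1 ≤ μ * v.ord t := mul_le_mul_of_nonneg_left (by omega) (by positivity)
      have h3 : (0 : ℤ) ≤ ((m * poleOrder v x : ℕ) : ℤ) := Nat.cast_nonneg _
      linarith
    · have h1 := h v
      linarith
  rw [← Finset.mul_sum, e1, mul_zero, Finset.sum_sub_distrib, ← Finset.sum_filter,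
    Finset.filter_mem_eq_inter, Finset.inter_eq_right.2 hZT, Finset.sum_const, nsmul_eq_mul,
    ← Nat.cast_sum, ← Finset.mul_sum, ← e2] at e3
  have e4 : (μ : ℤ) * Z.card ≤ m * deg k x := by
    push_cast at e3
    linarith
  exact_mod_cast e4

theorem pf_COV (hMN : T_MN) : T_COV := by
  intro k _ _ _ m a hm hPw
  obtain ⟨B, hB⟩ := hMN k m a hm hPw
  refine ⟨B, ?_⟩
  intro μ hμ K _ _ _ htr D hD x t S hS ht
  classical
  have hsub : aeval x (FF a) - 1 = t ^ μ := by
    rw [ht]
    ring
  have hord : ∀ v : DV k K, v.ord (aeval x (FF a) - 1) = μ * v.ord t := fun v => by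
    rw [hsub, v.ord_pow]
  have hμ' : (1 : ℤ) ≤ μ := by exact_mod_cast hμ
  set Z : Set (DV k K) := {v | v ∉ S ∧ 0 < v.ord t} with hZ
  have hZf : Z.Finite := (pfm k K htr t).1.subset fun v hv => by
    have : 0 < v.ord t := hv.2
    exact (ne_of_gt this)
  have hcard : ((S ∪ hZf.toFinset).card : ℤ) = S.card + hZf.toFinset.card := by
    rw [Finset.card_union_of_disjoint]
    · push_cast
      rfl
    · rw [Finset.disjoint_left]
      intro v hv hv'
      exact (hZf.mem_toFinset.1 hv').1 hv
  have hpole : ∀ v : DV k K, -((m * poleOrder v x : ℕ) : ℤ) ≤ μ * v.ord t := by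
    intro v
    rcases eq_or_ne t 0 with h0 | h0
    · rw [h0, v.ord_zero, mul_zero]
      have : (0 : ℤ) ≤ ((m * poleOrder v x : ℕ) : ℤ) := Nat.cast_nonneg _
      linarith
    · have h1 : ge v (-(m * poleOrder v x : ℤ)) (aeval x (FF a) - 1) := by
        refine (ge_FF v x a).sub ((ge_one v).mono ?_)
        have : (0 : ℤ) ≤ m * poleOrder v x := by positivity
        linarith
      rcases h1 with h1 | h1
      · exact absurd (hsub ▸ h1) (pow_ne_zero μ h0)
      · rw [hord] at h1
        push_cast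
        exact h1
  have hz := zeros_le htr x t m μ hμ hpole hZf.toFinset fun v hv => (hZf.mem_toFinset.1 hv).2
  have key := hB K htr D hD x (S ∪ hZf.toFinset) fun v hv => ?_
  · rw [hcard] at key
    rcases key with h | h
    · left
      have hz' : (μ : ℤ) * hZf.toFinset.card ≤ m * deg k x := by exact_mod_cast hz
      have h5 := mul_le_mul_of_nonneg_left h (show (0 : ℤ) ≤ μ by omega)
      nlinarith
    · exact Or.inr h
  · rw [Finset.mem_union, not_or] at hv
    obtain ⟨h0, h1⟩ := hS v hv.1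
    refine ⟨h0, h1, ?_⟩
    have h2 : 0 ≤ v.ord (aeval x (FF a) - 1) := by
      refine v.ord_sub_nonneg (aeval_nonneg v h0 h1 _) ?_
      rw [v.ord_one]
    rw [hord] at h2 ⊢
    have h3 : ¬ 0 < v.ord t := fun h => hv.2 (hZf.mem_toFinset.2 ⟨hv.1, h⟩)
    have h4 : 0 ≤ v.ord t := by
      by_contra h
      push Not at h
      have : (μ : ℤ) * v.ord t < 0 := mul_neg_of_pos_of_neg (by omega) h
      omega
    have h5 : v.ord t = 0 := by omega
    rw [h5, mul_zero]

end Pool.Agent.H56.BF
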