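import Pool.Agent.H72.BF.Targets

/-! Modules NU1, GFS, EXF, ITD of the board bf_modules (helper56). -/

open Polynomial Finset

namespace Pool.Agent.H56.BF

open Pool.Agent.H72.BF

theorem nu1 : T_NU1 := by
  refine ⟨Real.log 4 + 4, by positivity, fun h => ?_⟩
  have h1 := Chebyshev.psi_le_const_mul_self (x := (h : ℝ)) (Nat.cast_nonneg h)
  rw [Chebyshev.psi_eq_log_lcmUpto] at h1
  have hpos : (0 : ℝ) < (Nat.lcmUpto h : ℝ) := by exact_mod_cast Nat.lcmUpto_pos h
  exact (Real.log_le_iff_le_exp hpos).1 h1

theorem gfs : T_GFS := by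
  intro b0 c P m
  induction m with
  | zero => simp [Gf]
  | succ m ih =>
    have hstep : Gf b0 c P (m + 1) = C b0 * derivative (Gf b0 c P m) + C c * Gf b0 c P m := rfl
    rw [hstep, ih]
    have h1 : C b0 * derivative (∑ k ∈ range (m + 1),
        C ((m.choose k : ℂ) * b0 ^ k * c ^ (m - k)) * derivative^[k] P) =
        ∑ k ∈ range (m + 1), C ((m.choose k : ℂ) * b0 ^ (k + 1) * c ^ (m + 1 - (k + 1))) *
          derivative^[k + 1] P := by
      rw [derivative_sum, mul_sum]
      refine sum_congr rfl fun k _ => ?_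
      rw [derivative_C_mul, ← mul_assoc, ← C_mul, Function.iterate_succ_apply',
        Nat.add_sub_add_right]
      congr 2
      ring
    have h2 : C c * (∑ k ∈ range (m + 1),
        C ((m.choose k : ℂ) * b0 ^ k * c ^ (m - k)) * derivative^[k] P) =
        ∑ k ∈ range (m + 1), C ((m.choose (k + 1) : ℂ) * b0 ^ (k + 1) * c ^ (m + 1 - (k + 1))) *
          derivative^[k + 1] P + C (c ^ (m + 1)) * P := by
      rw [mul_sum, sum_range_succ', sum_range_succ]
      have h3 : (m.choose (m + 1) : ℂ) = 0 := by
        rw [Nat.choose_succ_self, Nat.cast_zero]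
      rw [h3]
      simp only [zero_mul, map_zero, add_zero, Nat.choose_zero_right, Nat.cast_one, pow_zero,
        one_mul, mul_one, Nat.sub_zero, Function.iterate_zero, id_eq]
      congr 1
      · refine sum_congr rfl fun k hk => ?_
        rw [← mul_assoc, ← C_mul]
        congr 2
        have hkm : k + 1 ≤ m := mem_range.1 hk
        have e : m + 1 - (k + 1) = (m - (k + 1)) + 1 := by omega
        rw [e, pow_succ]
        ring
      · rw [← mul_assoc, ← C_mul, pow_succ']
    rw [h1, h2, ← add_assoc, ← sum_add_distrib, sum_range_succ' _ (m + 1)]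
    simp only [Nat.choose_zero_right, Nat.cast_one, pow_zero,
        one_mul, mul_one, Nat.sub_zero, Function.iterate_zero, id_eq]
    congr 1
    refine sum_congr rfl fun k _ => ?_
    rw [← add_mul, ← C_add, Nat.choose_succ_succ]
    congr 2
    push_cast
    ring

theorem exf : T_EXF := by
  intro n lam B t hb
  unfold ex LF.val
  rw [Fin.sum_univ_succ, Fin.sum_univ_succ, Fin.sum_univ_succ]
  have h1 : ∀ j : Fin n, eta lam j.succ * gam B t j.succ =
      B.b 0 * ((t j.succ : ℂ) * lam j.succ) - (t 0 : ℂ) * (B.b j.succ * lam j.succ) := by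
    intro j
    unfold H72.BF.eta gam
    simp only [Fin.cases_succ]
    ring
  rw [sum_congr rfl fun j _ => h1 j, sum_sub_distrib, ← mul_sum, ← mul_sum]
  have h0 : eta lam 0 * gam B t 0 = -(B.bs * (t 0 : ℂ)) := by
    unfold H72.BF.eta gam
    simp only [Fin.cases_zero, one_mul]
  rw [h0]
  field_simp
  ring

theorem itd (hdif : T_DIF) : T_ITD := by
  intro n N h L0 lam B p hb r
  have hdf : ∀ m, Differentiable ℂ (Phi lam B p m) := fun m z =>
    (hdif n N h L0 lam B p hb m z).differentiableAt
  induction r with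
  | zero =>
    intro m z ε _ H
    have h1 := H 0 (by simp)
    rw [add_zero] at h1
    rw [iteratedDeriv_zero, pow_zero, one_mul]
    exact h1
  | succ r ih =>
    intro m z ε hε H
    have hd : deriv (Phi lam B p m) = fun z => (B.b 0)⁻¹ *
        ∑ j, eta lam j * Phi lam B p (m + Pi.single j 1) z :=
      funext fun z => (hdif n N h L0 lam B p hb m z).deriv
    rw [iteratedDeriv_succ', hd, iteratedDeriv_const_mul_field, iteratedDeriv_fun_sum]
    · rw [norm_mul, norm_inv, pow_succ, mul_comm ((‖B.b 0‖⁻¹ * ∑ j, ‖eta lam j‖) ^ r),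
        mul_assoc, mul_assoc, sum_mul]
      refine mul_le_mul_of_nonneg_left ?_ (by positivity)
      refine (norm_sum_le _ _).trans (sum_le_sum fun j _ => ?_)
      rw [iteratedDeriv_const_mul_field, norm_mul]
      refine mul_le_mul_of_nonneg_left ?_ (norm_nonneg _)
      refine ih _ z ε hε fun i hi => ?_
      have h1 := H (Pi.single j 1 + i) (by
        simp only [Pi.add_apply, sum_add_distrib, hi]
        rw [Finset.sum_pi_single' j 1]
        simp [add_comm])
      rwa [← add_assoc] at h1
    · intro j _
      exact ((hdf _).const_mul _).contDiff.contDiffAt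

end Pool.Agent.H56.BF
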