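import Pool.Agent.H72.BF.Targets6

open Polynomial Finset Filter
open Pool.Agent.H72.BF

namespace Pool.Agent.H56.BF.RNB

variable {K F : Type} [Field K] [Field F] [Algebra K F] {r s : ℕ}

/-- A maximal algebraically independent subfamily. -/
lemma exists_basis (t : Fin r → F) : ∃ (s : ℕ) (b : Fin s → Fin r),
    AlgebraicIndependent K (t ∘ b) ∧ ∀ i, IsAlgebraic (EE' K (t ∘ b)) (t i) := by
  classical
  -- maximal independent set of indices
  obtain ⟨I, hI⟩ : ∃ I : Finset (Fin r), AlgebraicIndepOn K t (I : Set (Fin r)) ∧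
      ∀ J : Finset (Fin r), AlgebraicIndepOn K t (J : Set (Fin r)) → J.card ≤ I.card := by
    have hne : ((Finset.univ : Finset (Finset (Fin r))).filter
        (fun I : Finset (Fin r) => AlgebraicIndepOn K t (I : Set (Fin r)))).Nonempty := by
      refine ⟨∅, ?_⟩
      rw [Finset.mem_filter]
      refine ⟨Finset.mem_univ _, ?_⟩
      have : IsEmpty ((∅ : Finset (Fin r)) : Set (Fin r)) := by simp
      exact algebraicIndependent_empty_type
    obtain ⟨I, hI, hmax⟩ := Finset.exists_max_image _ Finset.card hne
    rw [Finset.mem_filter] at hI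
    exact ⟨I, hI.2, fun J hJ => hmax J (Finset.mem_filter.2 ⟨Finset.mem_univ _, hJ⟩)⟩
  obtain ⟨hI, hmax⟩ := hI
  set e := I.equivFin.symm with he
  refine ⟨I.card, fun j => (e j : Fin r), ?_, ?_⟩
  · have h1 : AlgebraicIndependent K (fun i : I => t i) := hI
    exact h1.comp e e.injective
  · intro i
    have hrange : Set.range (t ∘ fun j => (e j : Fin r)) = t '' (I : Set (Fin r)) := by
      ext x
      constructor
      · rintro ⟨j, rfl⟩
        exact ⟨e j, (e j).2, rfl⟩
      · rintro ⟨j, hj, rfl⟩
        exact ⟨I.equivFin ⟨j, hj⟩, by simp [he]⟩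
    by_cases hi : i ∈ I
    · have h1 : t i ∈ EE' K (t ∘ fun j => (e j : Fin r)) := by
        apply IntermediateField.subset_adjoin
        rw [hrange]
        exact ⟨i, hi, rfl⟩
      exact isAlgebraic_algebraMap (⟨t i, h1⟩ : EE' K (t ∘ fun j => (e j : Fin r)))
    · have h1 : ¬ Transcendental (Algebra.adjoin K (t '' (I : Set (Fin r)))) (t i) := by
        intro htr
        have h2 : AlgebraicIndepOn K t (insert i (I : Set (Fin r))) := hI.insert htr
        have h3 := hmax (insert i I) (by rw [Finset.coe_insert]; exact h2)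
        rw [Finset.card_insert_of_notMem hi] at h3
        omega
      rw [Transcendental, not_not] at h1
      -- pass to the field
      have hle : ∀ x ∈ Algebra.adjoin K (t '' (I : Set (Fin r))),
          x ∈ EE' K (t ∘ fun j => (e j : Fin r)) := by
        intro x hx
        rw [← hrange] at hx
        exact IntermediateField.algebra_adjoin_le_adjoin K _ hx
      obtain ⟨p, hp0, hp⟩ := h1
      let φ : Algebra.adjoin K (t '' (I : Set (Fin r))) →+*
          EE' K (t ∘ fun j => (e j : Fin r)) :=
        { toFun := fun x => ⟨x.1, hle x.1 x.2⟩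
          map_one' := rfl
          map_mul' := fun _ _ => rfl
          map_zero' := rfl
          map_add' := fun _ _ => rfl }
      have hφ : Function.Injective φ := by
        intro x y hxy
        have := congrArg Subtype.val hxy
        exact Subtype.ext this
      refine ⟨p.map φ, ?_, ?_⟩
      · intro h0
        apply hp0
        exact Polynomial.map_injective φ hφ (by rw [h0, Polynomial.map_zero])
      · rw [Polynomial.aeval_def, Polynomial.eval₂_map]
        rw [Polynomial.aeval_def] at hp
        exact hp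

/-- Common denominators. -/
lemma common_denom (u : Fin s → F) {ι : Type} [Fintype ι] (f : ι → F)
    (hf : ∀ i, f i ∈ EE' K u) : ∃ (q : MvPolynomial (Fin s) K)
    (P : ι → MvPolynomial (Fin s) K), MvPolynomial.aeval u q ≠ 0 ∧
    ∀ i, f i * MvPolynomial.aeval u q = MvPolynomial.aeval u (P i) := by
  classical
  have h1 : ∀ i, ∃ a b : MvPolynomial (Fin s) K, MvPolynomial.aeval u b ≠ 0 ∧
      f i * MvPolynomial.aeval u b = MvPolynomial.aeval u a := by
    intro i
    obtain ⟨a, b, hab⟩ := (IntermediateField.mem_adjoin_range_iff K u (f i)).1 (hf i)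
    by_cases hb : MvPolynomial.aeval u b = 0
    · refine ⟨0, 1, by simp, ?_⟩
      rw [hab, hb]; simp
    · exact ⟨a, b, hb, by rw [hab, div_mul_cancel₀ _ hb]⟩
  choose a b hb hab using h1
  refine ⟨∏ i, b i, fun i => a i * ∏ j ∈ Finset.univ.erase i, b j, ?_, ?_⟩
  · rw [map_prod]
    exact Finset.prod_ne_zero_iff.2 fun i _ => hb i
  · intro i
    rw [map_mul, ← hab, mul_assoc, ← map_mul, Finset.mul_prod_erase _ _ (Finset.mem_univ i)]

/-- The exponent functions. -/
def expo {d : ℕ} (m : Fin (r + 1) →₀ ℕ) : Fin r → Fin (d + 1) :=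
  fun i => ⟨min (m (Fin.castSucc i)) d, by omega⟩

lemma expo_val {d : ℕ} {Q : MvPolynomial (Fin (r + 1)) K} (hQ : Q.totalDegree ≤ d)
    {m : Fin (r + 1) →₀ ℕ} (hm : m ∈ Q.support) (i : Fin r) :
    ((expo (d := d) m i : Fin (d + 1)) : ℕ) = m (Fin.castSucc i) := by
  have h1 : m (Fin.castSucc i) ≤ Q.totalDegree := by
    refine le_trans ?_ (MvPolynomial.degreeOf_le_totalDegree Q (Fin.castSucc i))
    exact MvPolynomial.monomial_le_degreeOf _ hm
  simp only [expo]
  omega

theorem rnb : T_RNB := by
  classical
  intro K F _ _ _ _ r d t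
  obtain ⟨s, b, hb, halg⟩ := exists_basis (K := K) t
  set u : Fin s → F := t ∘ b with hu
  -- the finite extension
  set L : IntermediateField K F := EE' K u with hL
  set L1 : IntermediateField L F := IntermediateField.adjoin L (Set.range t) with hL1
  have hfin : FiniteDimensional L L1 := by
    have : Finite (Set.range t) := Set.finite_range t
    refine IntermediateField.finiteDimensional_adjoin ?_
    rintro _ ⟨i, rfl⟩
    exact (halg i).isIntegral
  have ht1 : ∀ i, t i ∈ L1 := fun i => IntermediateField.subset_adjoin _ _ ⟨i, rfl⟩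
  let t1 : Fin r → L1 := fun i => ⟨t i, ht1 i⟩
  set N := Module.finrank L L1 with hN
  let e : Module.Basis (Fin N) L L1 := Module.finBasis L L1
  -- the regular representation over F
  let Φ : L1 →+* Matrix (Fin N) (Fin N) F :=
    ((algebraMap L F).mapMatrix).comp (Algebra.leftMulMatrix e : L1 →ₐ[L] _).toRingHom
  have hΦ : ∀ (x : L1) (i j : Fin N), Φ x i j = ((e.repr (x * e j) i : L) : F) := by
    intro x i j
    change algebraMap L F (Algebra.leftMulMatrix e x i j) = _
    rw [Algebra.leftMulMatrix_eq_repr_mul]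
    rfl
  have hP1 : ∀ (x : L1) (j : Fin N), ∑ i, ((e i : L1) : F) * Φ x i j = (x : F) * ((e j : L1) : F) := by
    intro x j
    have h1 := e.sum_repr (x * e j)
    have h2 : ((∑ i, e.repr (x * e j) i • e i : L1) : F) = ((x * e j : L1) : F) :=
      congrArg (fun z : L1 => (z : F)) h1
    have h3 : ((∑ i, e.repr (x * e j) i • e i : L1) : F)
        = ∑ i, ((e i : L1) : F) * Φ x i j := by
      rw [AddSubmonoidClass.coe_finsetSum]
      refine Finset.sum_congr rfl fun i _ => ?_
      rw [hΦ]
      exact mul_comm ((e.repr (x * e j) i : L) : F) _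
    rw [← h3, h2]
    rfl
  have hP2 : ∀ x : L1, x ≠ 0 → (Φ x).det ≠ 0 := by
    intro x hx h0
    have h1 : Φ x * Φ x⁻¹ = 1 := by rw [← map_mul, mul_inv_cancel₀ hx, map_one]
    have h2 := congrArg Matrix.det h1
    rw [Matrix.det_mul, h0, zero_mul, Matrix.det_one] at h2
    exact zero_ne_one h2
  -- coefficients
  let κ : K → L1 := fun c => algebraMap L L1 (algebraMap K L c)
  have hκ : ∀ (c : K), Φ (κ c) = (algebraMap K F c) • (1 : Matrix (Fin N) (Fin N) F) := by
    intro c
    change (algebraMap L F).mapMatrix (Algebra.leftMulMatrix e (algebraMap L L1 (algebraMap K L c))) = _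
    rw [AlgHom.commutes]
    ext i j
    simp only [RingHom.mapMatrix_apply, Matrix.map_apply, Matrix.smul_apply, Matrix.one_apply,
      smul_eq_mul, Matrix.algebraMap_matrix_apply]
    split_ifs
    · rw [mul_one]
      rfl
    · rw [map_zero, mul_zero]
  -- monomials and common denominator
  let A : (Fin r → Fin (d + 1)) → L1 := fun a => ∏ i, t1 i ^ (a i : ℕ)
  obtain ⟨q, P', hq, hP'⟩ := common_denom (K := K) u
    (fun x : (Fin r → Fin (d + 1)) × Fin N × Fin N => Φ (A x.1) x.2.1 x.2.2)
    (by
      rintro ⟨a, i, j⟩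
      rw [hΦ]
      exact (e.repr (A a * e j) i).2)
  let P : (Fin r → Fin (d + 1)) → Fin N → Fin N → MvPolynomial (Fin s) K :=
    fun a i j => P' (a, i, j)
  have hP : ∀ a i j, Φ (A a) i j * MvPolynomial.aeval u q = MvPolynomial.aeval u (P a i j) :=
    fun a i j => hP' (a, i, j)
  let D0 := (Finset.univ : Finset ((Fin r → Fin (d + 1)) × Fin N × Fin N)).sup
    (fun x => (P' x).totalDegree)
  have hD0 : ∀ a i j, (P a i j).totalDegree ≤ D0 := fun a i j =>
    Finset.le_sup (f := fun x : (Fin r → Fin (d + 1)) × Fin N × Fin N => (P' x).totalDegree)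
      (Finset.mem_univ (a, i, j))
  refine ⟨s, b, N * (D0 + d), hb, ?_⟩
  rintro y ⟨Q, hQd, hQy, hQX⟩
  -- the polynomial matrix
  let MP : Matrix (Fin N) (Fin N) (MvPolynomial (Fin (s + 1)) K) := fun i j =>
    ∑ m ∈ Q.support, MvPolynomial.C (Q.coeff m) *
      (MvPolynomial.rename Fin.castSucc (P (expo m) i j) *
        MvPolynomial.X (Fin.last s) ^ (m (Fin.last r)))
  -- its values
  let MZ : F → Matrix (Fin N) (Fin N) F := fun z =>
    ∑ m ∈ Q.support, (algebraMap K F (Q.coeff m) * z ^ (m (Fin.last r))) • Φ (A (expo m))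
  have hev : ∀ z : F, MP.map (MvPolynomial.aeval (Fin.snoc u z : Fin (s + 1) → F))
      = (MvPolynomial.aeval u q) • MZ z := by
    intro z
    ext i j
    simp only [Matrix.map_apply, MP, MZ, map_sum, Matrix.smul_apply, Matrix.sum_apply,
      smul_eq_mul, Finset.mul_sum]
    refine Finset.sum_congr rfl fun m hm => ?_
    rw [map_mul, map_mul, map_pow, MvPolynomial.aeval_X, Fin.snoc_last,
      MvPolynomial.aeval_rename, MvPolynomial.aeval_C]
    have : (Fin.snoc u z : Fin (s + 1) → F) ∘ Fin.castSucc = u := by
      ext i; simp [Fin.snoc_castSucc]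
    rw [this, ← hP]
    ring
  -- the polynomial
  have hval : ∀ z : F, MvPolynomial.aeval (Fin.snoc u z : Fin (s + 1) → F) MP.det
      = (MvPolynomial.aeval u q) ^ N * (MZ z).det := by
    intro z
    rw [AlgHom.map_det, AlgHom.mapMatrix_apply, hev, Matrix.det_smul, Fintype.card_fin]
  -- value of Q
  have hAe : ∀ m ∈ Q.support, ((A (expo m) : L1) : F) = ∏ i, t i ^ (m (Fin.castSucc i)) := by
    intro m hm
    change ((∏ i, t1 i ^ ((expo (d := d) m i : Fin (d + 1)) : ℕ) : L1) : F) = _
    rw [SubmonoidClass.coe_finsetProd]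
    refine Finset.prod_congr rfl fun i _ => ?_
    rw [expo_val hQd hm]
    rfl
  have hQval : ∀ z : F, MvPolynomial.aeval (Fin.snoc t z : Fin (r + 1) → F) Q
      = ∑ m ∈ Q.support, (algebraMap K F (Q.coeff m) * z ^ (m (Fin.last r))) *
        ((A (expo m) : L1) : F) := by
    intro z
    rw [MvPolynomial.aeval_def, MvPolynomial.eval₂_eq']
    refine Finset.sum_congr rfl fun m hm => ?_
    rw [Fin.prod_univ_castSucc, hAe m hm]
    simp only [Fin.snoc_castSucc, Fin.snoc_last]
    ring
  refine ⟨MP.det, ?_, ?_, ?_⟩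
  · -- nonzero
    intro h0
    -- choose a good value
    obtain ⟨c, hc⟩ : ∃ c : K, MvPolynomial.aeval
        (Fin.snoc t (algebraMap K F c) : Fin (r + 1) → F) Q ≠ 0 := by
      by_contra hcon
      push Not at hcon
      apply hQX
      set g := MvPolynomial.aeval (Fin.snoc (fun i => C (t i)) X : Fin (r + 1) → F[X]) Q with hg
      have hgz : ∀ z : F, g.eval z = MvPolynomial.aeval (Fin.snoc t z : Fin (r + 1) → F) Q := by
        intro z
        have h1 : (Polynomial.aeval z : F[X] →ₐ[F] F).restrictScalars K g
            = MvPolynomial.aeval (fun i => (Polynomial.aeval z : F[X] →ₐ[F] F).restrictScalars K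
              ((Fin.snoc (fun i => C (t i)) X : Fin (r + 1) → F[X]) i)) Q := by
          rw [hg, ← MvPolynomial.comp_aeval_apply]
        have h2 : (fun i => (Polynomial.aeval z : F[X] →ₐ[F] F).restrictScalars K
              ((Fin.snoc (fun i => C (t i)) X : Fin (r + 1) → F[X]) i))
            = (Fin.snoc t z : Fin (r + 1) → F) := by
          funext i
          refine Fin.lastCases ?_ (fun j => ?_) i
          · simp [Fin.snoc_last]
          · simp [Fin.snoc_castSucc]
        rw [h2] at h1
        rw [← h1]
        simp [Polynomial.aeval_def]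
      refine Polynomial.eq_zero_of_infinite_isRoot g ?_
      have hinf : (Set.range (algebraMap K F)).Infinite :=
        Set.infinite_range_of_injective (algebraMap K F).injective
      refine hinf.mono ?_
      rintro _ ⟨c, rfl⟩
      change g.eval _ = 0
      rw [hgz]
      exact hcon c
    -- the element of L1
    let x0 : L1 := ∑ m ∈ Q.support, (κ (Q.coeff m) * κ c ^ (m (Fin.last r))) * A (expo m)
    have hx0 : (x0 : F) ≠ 0 := by
      have : (x0 : F) = MvPolynomial.aeval
        (Fin.snoc t (algebraMap K F c) : Fin (r + 1) → F) Q := by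
        rw [hQval]
        change ((∑ m ∈ Q.support, (κ (Q.coeff m) * κ c ^ (m (Fin.last r))) * A (expo m) : L1) : F) = _
        rw [AddSubmonoidClass.coe_finsetSum]
        rfl
      rw [this]; exact hc
    have hx0' : x0 ≠ 0 := by
      intro h
      exact hx0 (by rw [h]; rfl)
    have hMZ : MZ (algebraMap K F c) = Φ x0 := by
      change _ = Φ (∑ m ∈ Q.support, (κ (Q.coeff m) * κ c ^ (m (Fin.last r))) * A (expo m))
      rw [map_sum]
      refine Finset.sum_congr rfl fun m _ => ?_
      rw [map_mul, map_mul, map_pow, hκ, hκ, _root_.smul_pow, one_pow, smul_mul_smul_comm, one_mul,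
        smul_mul_assoc, one_mul]
    have h1 := hval (algebraMap K F c)
    rw [h0, map_zero, hMZ] at h1
    exact mul_ne_zero (pow_ne_zero _ hq) (hP2 x0 hx0') h1.symm
  · -- degree
    rw [Matrix.det_apply]
    refine MvPolynomial.totalDegree_finsetSum_le fun σ _ => ?_
    refine (MvPolynomial.totalDegree_smul_le _ _).trans ?_
    refine (MvPolynomial.totalDegree_finsetProd _ _).trans ?_
    have hent : ∀ i j, (MP i j).totalDegree ≤ D0 + d := by
      intro i j
      refine MvPolynomial.totalDegree_finsetSum_le fun m hm => ?_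
      refine (MvPolynomial.totalDegree_mul _ _).trans ?_
      rw [MvPolynomial.totalDegree_C, zero_add]
      refine (MvPolynomial.totalDegree_mul _ _).trans ?_
      refine add_le_add ((MvPolynomial.totalDegree_rename_le _ _).trans (hD0 _ _ _)) ?_
      rw [MvPolynomial.totalDegree_X_pow]
      refine le_trans ?_ hQd
      refine le_trans ?_ (MvPolynomial.degreeOf_le_totalDegree Q (Fin.last r))
      exact MvPolynomial.monomial_le_degreeOf _ hm
    refine (Finset.sum_le_sum fun i _ => hent (σ i) i).trans ?_
    simp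
  · -- the value at y
    rw [hval]
    have h1 : (MZ y).det = 0 := by
      rw [← Matrix.exists_vecMul_eq_zero_iff]
      have hNpos : 0 < N := Module.finrank_pos
      refine ⟨fun i => ((e i : L1) : F), ?_, ?_⟩
      · intro h
        have h2 := congrFun h ⟨0, hNpos⟩
        have h3 : e ⟨0, hNpos⟩ = 0 := Subtype.ext h2
        exact e.ne_zero _ h3
      · ext j
        rw [Matrix.vecMul_sum]
        simp only [Finset.sum_apply, Matrix.vecMul_smul, Pi.smul_apply, smul_eq_mul,
          Pi.zero_apply]
        have h2 : ∀ m ∈ Q.support, (algebraMap K F (Q.coeff m) * y ^ (m (Fin.last r))) *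
            (Matrix.vecMul (fun i => ((e i : L1) : F)) (Φ (A (expo m)))) j
            = ((algebraMap K F (Q.coeff m) * y ^ (m (Fin.last r))) *
              ((A (expo m) : L1) : F)) * ((e j : L1) : F) := by
          intro m _
          have : (Matrix.vecMul (fun i => ((e i : L1) : F)) (Φ (A (expo m)))) j
              = ∑ i, ((e i : L1) : F) * Φ (A (expo m)) i j := rfl
          rw [this, hP1]
          ring
        rw [Finset.sum_congr rfl h2, ← Finset.sum_mul, ← hQval, hQy, zero_mul]
    rw [h1, mul_zero]

end Pool.Agent.H56.BF.RNB
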